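import Pool.Agent.Helper73.RT.Defs

/-!
Project RT, module B2: the graph (core of the proof, with the red-blue graph and the map given).
-/

set_option autoImplicit false

open Finset

namespace Pool.Agent.Helper73.RT

/-- The graph of the construction. -/
def h28G {P : Type} (NA X : P → P → Prop) {n N : ℕ} (lab : Fin n → Bool × P)
    (hNA : ∀ i j, NA i j → NA j i) (hX : ∀ i j, X i j → X j i)
    (R B : SimpleGraph (Fin N)) (π : Fin n → Fin N) : SimpleGraph (Fin n) where
  Adj x y := x ≠ y ∧ (((lab x).1 = (lab y).1 ∧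
    (R.Adj (π x) (π y) ∨ (B.Adj (π x) (π y) ∧ NA (lab x).2 (lab y).2))) ∨
    ((lab x).1 ≠ (lab y).1 ∧ X (lab x).2 (lab y).2))
  symm := ⟨by
    rintro x y ⟨h1, h2⟩
    refine ⟨h1.symm, ?_⟩
    rcases h2 with ⟨ha, hb⟩ | ⟨ha, hb⟩
    · left
      refine ⟨ha.symm, ?_⟩
      rcases hb with hb | ⟨hb, hc⟩
      · exact Or.inl hb.symm
      · exact Or.inr ⟨hb.symm, hNA _ _ hc⟩
    · right
      exact ⟨fun h => ha h.symm, hX _ _ hb⟩⟩
  loopless := ⟨fun _ h => h.1 rfl⟩

/-- On one side a clique has at most three vertices, and if it has three then two of them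
are near-antipodal. -/
private theorem h28_side {P : Type} (NA X : P → P → Prop) {n N : ℕ} (lab : Fin n → Bool × P)
    (hNA : ∀ i j, NA i j → NA j i) (hX : ∀ i j, X i j → X j i)
    (R B : SimpleGraph (Fin N)) (hRB : R ≤ B) (hR : R.CliqueFree 3) (hB : B.CliqueFree 4)
    (π : Fin n → Fin N) (b : Bool) (s : Finset (Fin n))
    (hs : (h28G NA X lab hNA hX R B π).IsClique (s : Set (Fin n)))
    (hb : ∀ x ∈ s, (lab x).1 = b) :
    s.card ≤ 3 ∧ (s.card = 3 → ∃ x ∈ s, ∃ y ∈ s, NA (lab x).2 (lab y).2) := by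
  classical
  have hadj : ∀ x ∈ s, ∀ y ∈ s, x ≠ y →
      (R.Adj (π x) (π y) ∨ (B.Adj (π x) (π y) ∧ NA (lab x).2 (lab y).2)) := by
    intro x hx y hy hxy
    have h := hs (Finset.mem_coe.2 hx) (Finset.mem_coe.2 hy) hxy
    rcases h.2 with ⟨_, h2⟩ | ⟨h2, _⟩
    · exact h2
    · exact absurd ((hb x hx).trans (hb y hy).symm) h2
  have hBadj : ∀ x ∈ s, ∀ y ∈ s, x ≠ y → B.Adj (π x) (π y) := by
    intro x hx y hy hxy
    rcases hadj x hx y hy hxy with h | h
    · exact hRB h
    · exact h.1
  have hinj : Set.InjOn π (s : Set (Fin n)) := by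
    intro x hx y hy hxy
    by_contra hne
    have h := hBadj x (Finset.mem_coe.1 hx) y (Finset.mem_coe.1 hy) hne
    rw [hxy] at h
    exact h.ne rfl
  have hcard : (s.image π).card = s.card := Finset.card_image_of_injOn hinj
  have hBclique : B.IsClique ((s.image π : Finset (Fin N)) : Set (Fin N)) := by
    intro u hu v hv huv
    rw [Finset.mem_coe, Finset.mem_image] at hu hv
    obtain ⟨x, hx, rfl⟩ := hu
    obtain ⟨y, hy, rfl⟩ := hv
    exact hBadj x hx y hy fun h => huv (by rw [h])
  constructor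
  · by_contra hlt
    push Not at hlt
    obtain ⟨u, hu, hu4⟩ := Finset.exists_subset_card_eq (s := s.image π) (n := 4) (by omega)
    exact hB u ⟨hBclique.subset (Finset.coe_subset.2 hu), hu4⟩
  · intro h3
    by_contra hno
    push Not at hno
    refine hR (s.image π) ⟨?_, by omega⟩
    intro u hu v hv huv
    rw [Finset.mem_coe, Finset.mem_image] at hu hv
    obtain ⟨x, hx, rfl⟩ := hu
    obtain ⟨y, hy, rfl⟩ := hv
    rcases hadj x hx y hy fun h => huv (by rw [h]) with h | h
    · exact h
    · exact absurd h.2 (hno x hx y hy)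

private theorem h28_cliqueFree {P : Type} (NA X : P → P → Prop) {n N : ℕ}
    (lab : Fin n → Bool × P)
    (hNA : ∀ i j, NA i j → NA j i) (hX : ∀ i j, X i j → X j i)
    (hgeo : ∀ i i' j j', NA i i' → NA j j' → X i j → X i j' → X i' j → X i' j' → False)
    (R B : SimpleGraph (Fin N)) (hRB : R ≤ B) (hR : R.CliqueFree 3) (hB : B.CliqueFree 4)
    (π : Fin n → Fin N) : (h28G NA X lab hNA hX R B π).CliqueFree 6 := by
  classical
  intro s hs
  have hcl := hs.isClique
  have hc := hs.card_eq
  have h1 := h28_side NA X lab hNA hX R B hRB hR hB π true (s.filter fun x => (lab x).1 = true)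
    (hcl.subset (Finset.coe_subset.2 (Finset.filter_subset _ _)))
    (fun x hx => (Finset.mem_filter.1 hx).2)
  have h2 := h28_side NA X lab hNA hX R B hRB hR hB π false (s.filter fun x => ¬ (lab x).1 = true)
    (hcl.subset (Finset.coe_subset.2 (Finset.filter_subset _ _)))
    (fun x hx => by simpa using (Finset.mem_filter.1 hx).2)
  have h3 := Finset.card_filter_add_card_filter_not (s := s) (fun x => (lab x).1 = true)
  obtain ⟨x, hx, x', hx', hxx⟩ := h1.2 (by omega)
  obtain ⟨y, hy, y', hy', hyy⟩ := h2.2 (by omega)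
  have hcross : ∀ u ∈ s.filter (fun x => (lab x).1 = true),
      ∀ v ∈ s.filter (fun x => ¬ (lab x).1 = true), X (lab u).2 (lab v).2 := by
    intro u hu v hv
    rw [Finset.mem_filter] at hu hv
    have hne : u ≠ v := fun h => hv.2 (h ▸ hu.2)
    have h := hcl (Finset.mem_coe.2 hu.1) (Finset.mem_coe.2 hv.1) hne
    rcases h.2 with ⟨h4, _⟩ | ⟨_, h4⟩
    · exact absurd (h4 ▸ hu.2) hv.2
    · exact h4
  exact hgeo _ _ _ _ hxx hyy (hcross x hx y hy) (hcross x hx y' hy') (hcross x' hx' y hy)
    (hcross x' hx' y' hy')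

/-- The vertices with a label in light cells. -/
private theorem h28_light {P : Type} [Fintype P] [DecidableEq P] {n : ℕ} (g : Fin n → P)
    (I : Finset (Fin n)) (q : ℕ) :
    (I.filter fun v => ¬ q ≤ (I.filter fun w => g w = g v).card).card ≤ Fintype.card P * q := by
  classical
  have h := Finset.card_le_mul_card_image (f := g)
    (I.filter fun v => ¬ q ≤ (I.filter fun w => g w = g v).card) q (by
      intro i hi
      rw [Finset.mem_image] at hi
      obtain ⟨v, hv, rfl⟩ := hi
      have hv2 := (Finset.mem_filter.1 hv).2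
      refine le_trans (Finset.card_le_card ?_) (le_of_not_ge hv2)
      intro w hw
      rw [Finset.mem_filter] at hw ⊢
      exact ⟨(Finset.mem_filter.1 hw.1).1, hw.2⟩)
  refine h.trans ?_
  rw [mul_comm]
  exact Nat.mul_le_mul_right _ (Finset.card_le_univ _)

/-- Module B2 with the red-blue graph and the random map as hypotheses. -/
theorem structure_core {P : Type} [Fintype P] [DecidableEq P] (NA X : P → P → Prop)
    (n N q1 q2 a b : ℕ) (lab : Fin n → Bool × P) (hNA : ∀ i j, NA i j → NA j i)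
    (hX : ∀ i j, X i j → X j i)
    (hgeo : ∀ i i' j j', NA i i' → NA j j' → X i j → X i j' → X i' j → X i' j' → False)
    (R B : SimpleGraph (Fin N)) (hRB : R ≤ B) (hR : R.CliqueFree 3) (hB : B.CliqueFree 4)
    (hRa : ∀ J : Finset (Fin N), a ≤ J.card → ∃ x ∈ J, ∃ y ∈ J, R.Adj x y)
    (hBb : ∀ J J' : Finset (Fin N), b ≤ J.card → b ≤ J'.card → ∃ x ∈ J, ∃ y ∈ J', B.Adj x y)
    (π : Fin n → Fin N)
    (hp1 : ∀ F : Finset P, (∀ i ∈ F, ∀ j ∈ F, ¬ NA i j) → ∀ c : Bool,
      ∀ J : Finset (Fin N), J.card ≤ a →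
        ((univ.filter fun v => (lab v).1 = c ∧ (lab v).2 ∈ F).filter fun v => π v ∈ J).card < q1)
    (hp2 : ∀ J : Finset (Fin N), J.card ≤ b → (univ.filter fun v => π v ∈ J).card < q2)
    (hq : Fintype.card P * q2 ≤ q1) :
    ∃ G : SimpleGraph (Fin n), G.CliqueFree 6 ∧
      (∀ I : Finset (Fin n), G.IsIndepSet I → I.card < 4 * q1) ∧
      (∀ x y, (lab x).1 = true → (lab y).1 = false → X (lab x).2 (lab y).2 → G.Adj x y) := by
  classical
  refine ⟨h28G NA X lab hNA hX R B π,
    h28_cliqueFree NA X lab hNA hX hgeo R B hRB hR hB π, ?_, ?_⟩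
  · intro I hI
    by_contra hbig
    push Not at hbig
    obtain ⟨c, hc⟩ : ∃ c : Bool, 2 * q1 ≤ (I.filter fun v => (lab v).1 = c).card := by
      by_contra hno
      push Not at hno
      have h1 := hno true
      have h2 := hno false
      have h3 := Finset.card_filter_add_card_filter_not (s := I) (fun x => (lab x).1 = true)
      have h4 : (I.filter fun x => ¬ (lab x).1 = true) = I.filter fun x => (lab x).1 = false := by
        ext x
        simp
      rw [h4] at h3
      omega
    set K : Finset (Fin n) := I.filter fun v => (lab v).1 = c with hK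
    have hKI : ∀ v ∈ K, v ∈ I := fun v hv => (Finset.mem_filter.1 hv).1
    have hKc : ∀ v ∈ K, (lab v).1 = c := fun v hv => (Finset.mem_filter.1 hv).2
    have hnoadj : ∀ v ∈ K, ∀ w ∈ K, v ≠ w →
        ¬ (R.Adj (π v) (π w) ∨ (B.Adj (π v) (π w) ∧ NA (lab v).2 (lab w).2)) := by
      intro v hv w hw hvw h
      have := hI (Finset.mem_coe.2 (hKI v hv)) (Finset.mem_coe.2 (hKI w hw)) hvw
      exact this ⟨hvw, Or.inl ⟨(hKc v hv).trans (hKc w hw).symm, h⟩⟩
    set F : Finset P := univ.filter fun i => q2 ≤ (K.filter fun v => (lab v).2 = i).card with hF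
    have hFNA : ∀ i ∈ F, ∀ j ∈ F, ¬ NA i j := by
      intro i hi j hj hij
      have big : ∀ i ∈ F, b ≤ ((K.filter fun v => (lab v).2 = i).image π).card := by
        intro i hi
        by_contra hlt
        push Not at hlt
        have h1 := hp2 _ hlt.le
        have h2 : q2 ≤ (K.filter fun v => (lab v).2 = i).card := (Finset.mem_filter.1 hi).2
        have h3 : (K.filter fun v => (lab v).2 = i).card ≤
            (univ.filter fun v => π v ∈ (K.filter fun v => (lab v).2 = i).image π).card := by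
          refine Finset.card_le_card fun v hv => ?_
          rw [Finset.mem_filter]
          exact ⟨Finset.mem_univ _, Finset.mem_image_of_mem _ hv⟩
        omega
      obtain ⟨x, hx, y, hy, hxy⟩ := hBb _ _ (big i hi) (big j hj)
      rw [Finset.mem_image] at hx hy
      obtain ⟨v, hv, rfl⟩ := hx
      obtain ⟨w, hw, rfl⟩ := hy
      rw [Finset.mem_filter] at hv hw
      refine hnoadj v hv.1 w hw.1 (fun h => ?_) (Or.inr ⟨hxy, ?_⟩)
      · rw [h] at hxy
        exact hxy.ne rfl
      · rw [hv.2, hw.2]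
        exact hij
    have hlight := h28_light (fun v => (lab v).2) K q2
    have hsplit := Finset.card_filter_add_card_filter_not (s := K)
      (fun v => q2 ≤ (K.filter fun w => (lab w).2 = (lab v).2).card)
    set L : Finset (Fin n) := K.filter fun v => q2 ≤ (K.filter fun w => (lab w).2 = (lab v).2).card
      with hL
    have hLbig : q1 ≤ L.card := by omega
    have hLsub : ∀ J : Finset (Fin N), (∀ v ∈ L, π v ∈ J) → L ⊆
        ((univ.filter fun v => (lab v).1 = c ∧ (lab v).2 ∈ F).filter fun v => π v ∈ J) := by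
      intro J hJ v hv
      have hv' := Finset.mem_filter.1 hv
      rw [Finset.mem_filter, Finset.mem_filter]
      refine ⟨⟨Finset.mem_univ _, hKc v hv'.1, ?_⟩, hJ v hv⟩
      rw [hF, Finset.mem_filter]
      exact ⟨Finset.mem_univ _, hv'.2⟩
    have hJbig : a < (L.image π).card := by
      by_contra hle
      push Not at hle
      have h1 := hp1 F hFNA c _ hle
      have h2 := Finset.card_le_card (hLsub (L.image π) fun v hv => Finset.mem_image_of_mem _ hv)
      omega
    obtain ⟨x, hx, y, hy, hxy⟩ := hRa _ hJbig.le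
    rw [Finset.mem_image] at hx hy
    obtain ⟨v, hv, rfl⟩ := hx
    obtain ⟨w, hw, rfl⟩ := hy
    refine hnoadj v (Finset.mem_filter.1 hv).1 w (Finset.mem_filter.1 hw).1 (fun h => ?_)
      (Or.inl hxy)
    rw [h] at hxy
    exact hxy.ne rfl
  · intro x y hx hy hxy
    have hne : (lab x).1 ≠ (lab y).1 := by
      rw [hx, hy]
      decide
    exact ⟨fun h => hne (by rw [h]), Or.inr ⟨hne, hxy⟩⟩

end Pool.Agent.Helper73.RT
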