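import Pool.Agent.Helper28.RT.Core
import Pool.Agent.Helper83.RT.Pi

/-!
Project RT, module B2: the graph, with the red-blue graph (module A9) as a hypothesis.
-/

set_option autoImplicit false

open Finset

namespace Pool.Agent.Helper73.RT

/-- Module B2 with the conclusion of A9 as a hypothesis. -/
theorem structure_main_of {P : Type} [Fintype P] [DecidableEq P] (NA X : P → P → Prop)
    (n t H : ℕ) (lab : Fin n → Bool × P) (hNA : ∀ i j, NA i j → NA j i)
    (hX : ∀ i j, X i j → X j i)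
    (hgeo : ∀ i i' j j', NA i i' → NA j j' → X i j → X i j' → X i' j → X i' j' → False)
    (hF : ∀ F : Finset P, (∀ i ∈ F, ∀ j ∈ F, ¬ NA i j) → ∀ b : Bool,
      (univ.filter fun v => (lab v).1 = b ∧ (lab v).2 ∈ F).card ≤ t ^ 40)
    (ht : 10 ≤ t) (hH : 2 ≤ H) (hn : n ≤ H * t ^ 40) (hP : Fintype.card P * H ≤ t)
    (hθ : ∃ R B : SimpleGraph (Fin (t ^ 40)), R ≤ B ∧ R.CliqueFree 3 ∧ B.CliqueFree 4 ∧
      (∀ J : Finset (Fin (t ^ 40)), aT t ≤ J.card → ∃ x ∈ J, ∃ y ∈ J, R.Adj x y) ∧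
      (∀ J J' : Finset (Fin (t ^ 40)), bT t ≤ J.card → bT t ≤ J'.card →
        ∃ x ∈ J, ∃ y ∈ J', B.Adj x y)) :
    ∃ G : SimpleGraph (Fin n), G.CliqueFree 6 ∧
      (∀ I : Finset (Fin n), G.IsIndepSet I → I.card < 4 * q1T t) ∧
      (∀ x y, (lab x).1 = true → (lab y).1 = false → X (lab x).2 (lab y).2 → G.Adj x y) := by
  classical
  obtain ⟨R, B, hRB, hR, hB, hRa, hBb⟩ := hθ
  set Sf : Finset (Finset (Fin n)) :=
    (((univ : Finset (Bool × Finset P)).filter fun p => ∀ i ∈ p.2, ∀ j ∈ p.2, ¬ NA i j)).image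
      fun p => univ.filter fun v => (lab v).1 = p.1 ∧ (lab v).2 ∈ p.2 with hSfdef
  have hSf : Sf.card ≤ 2 ^ t := by
    have h1 : Sf.card ≤ 2 * 2 ^ Fintype.card P := by
      refine Finset.card_image_le.trans ((Finset.card_filter_le _ _).trans ?_)
      rw [Finset.card_univ, Fintype.card_prod, Fintype.card_bool, Fintype.card_finset]
    refine h1.trans ?_
    have h2 : Fintype.card P + 1 ≤ t := by
      rcases Nat.eq_zero_or_pos (Fintype.card P) with h0 | h0
      · rw [h0]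
        omega
      · have : Fintype.card P * 2 ≤ Fintype.card P * H := Nat.mul_le_mul_left _ hH
        omega
    calc 2 * 2 ^ Fintype.card P = 2 ^ (Fintype.card P + 1) := by ring
      _ ≤ 2 ^ t := Nat.pow_le_pow_right (by norm_num) h2
  have hS : ∀ S ∈ Sf, S.card ≤ t ^ 40 := by
    intro S hS
    rw [hSfdef, Finset.mem_image] at hS
    obtain ⟨p, hp, rfl⟩ := hS
    exact hF p.2 (Finset.mem_filter.1 hp).2 p.1
  obtain ⟨π, hp1, hp2⟩ := pi_exists t H n ht (by omega) hn Sf hSf hS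
  refine structure_core NA X n (t ^ 40) (q1T t) (q2T t H) (aT t) (bT t) lab hNA hX hgeo R B hRB
    hR hB hRa hBb π ?_ hp2 ?_
  · intro F hFN c J hJ
    refine hp1 _ ?_ J hJ
    rw [hSfdef, Finset.mem_image]
    exact ⟨(c, F), Finset.mem_filter.2 ⟨Finset.mem_univ _, hFN⟩, rfl⟩
  · unfold q1T q2T
    calc Fintype.card P * (4320000 * ell t ^ 2 * t ^ 19 * H)
        = 4320000 * ell t ^ 2 * t ^ 19 * (Fintype.card P * H) := by ring
      _ ≤ 4320000 * ell t ^ 2 * t ^ 19 * t := Nat.mul_le_mul_left _ hP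
      _ = 4320000 * ell t ^ 2 * t ^ 20 := by ring

end Pool.Agent.Helper73.RT
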